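import Pool.Agent.U234.BP.Main

set_option autoImplicit false

/-!
# Record prime gaps at the values of polynomials on products of arbitrary sets modulo primes

Write `f(x) = log x (log₂ x)² log₄ x / (log₃ x)²` for the record size of the prime-free intervals.  An
integer `n` is a centre modulo `p` if every integer within `κ f(p)` of `n` has a prime factor `≤ p ^ ε`;
so a centre in `(p ^ ε + κ f(p), p)` is in the middle of a record prime gap.  A finite family of vectors
modulo `p` has many centres if in every box with sides `L ≥ p ^ (1 - δ)` all the coordinates of at least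
`|s| p ^ (-ε)` of the vectors are represented by centres.

Let `A, B` be ARBITRARY sets of residues modulo `p` with `|A| |B| ≥ p ^ (1 + ε)`, and `G_i, K_i` arbitrary
functions.  The following families, indexed by the pairs `(a, b) ∈ A × B`, have many centres, where
`κ, δ` depend only on `r` and `ε`, and `p` is large in terms of `r, ε` and the degree bound `D`:

(1) `F_i(a, b) + G_i(a) + K_i(b)`, `i ≤ r`, for all polynomials `F_i(x, y)` whose monomials are divisible
by `x y`, with degrees at most `D` in `x` and in `y`, and linearly independent over `ℤ/p`; in other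
words, for all polynomials no nontrivial combination of which has the form `u(x) + v(y)`;
(2) sums: `g_i(a + b) + G_i(a) + K_i(b)`, for all polynomials `g_i` of degree at most `D` all of whose
nontrivial combinations have degree at least `2`;
(3) products: `g_i(a b) + G_i(a) + K_i(b)`, for all polynomials `g_i` of degree at most `D` all of whose
nontrivial combinations are nonconstant.

The starting library has the case `F_i = x y ^ i` of (1) (`MP_69be96_nt.ProductsAndPowersModP` (1)), its
criterion with the Fourier coefficients (part (0) there) and Weil's bound.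
-/

namespace Pool.Agent.Results.MP_711652_nt.PolynomialsOnProductSets

open Finset

/-- The record scale `f(x) = log x (log₂ x)² log₄ x / (log₃ x)²` (iterated natural logarithms). -/
noncomputable def f (x : ℝ) : ℝ :=
  Real.log x * (Real.log (Real.log x)) ^ 2 * Real.log (Real.log (Real.log (Real.log x))) /
    (Real.log (Real.log (Real.log x))) ^ 2

/-- Every integer within `κ f(p)` of `n` has a prime factor at most `p ^ ε`. -/
def Centre (κ ε : ℝ) (p : ℕ) (n : ℤ) : Prop :=
  ∀ t : ℤ, |(t : ℝ) - n| ≤ κ * f p → ∃ l : ℕ, l.Prime ∧ (l : ℝ) ≤ (p : ℝ) ^ ε ∧ (l : ℤ) ∣ t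

/-- For every box `∏ (M_j, M_j + L]` with `p ^ (1 - δ) ≤ L ≤ p` at least `|s| p ^ (-ε)` of the vectors
`v_i`, `i ∈ s`, modulo `p` are represented by vectors of centres in the box. -/
def ManyCentres (κ ε δ : ℝ) (p : ℕ) {ι : Type} {r : ℕ} (s : Finset ι) (v : ι → Fin r → ZMod p) :
    Prop :=
  ∀ (M : Fin r → ℤ) (L : ℕ), (p : ℝ) ^ (1 - δ) ≤ L → L ≤ p →
    ∃ g ⊆ s, s.card * (p : ℝ) ^ (-ε) ≤ g.card ∧
      ∀ i ∈ g, ∀ j, ∃ n : ℤ, M j < n ∧ n ≤ M j + L ∧ (n : ZMod p) = v i j ∧ Centre κ ε p n

/-- The polynomial with the coefficients `c k m` at `x ^ (k + 1) y ^ (m + 1)`, `0 ≤ k, m < D`. -/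
def poly {p D : ℕ} (c : Fin D → Fin D → ZMod p) (x y : ZMod p) : ZMod p :=
  ∑ k, ∑ m, c k m * x ^ ((k : ℕ) + 1) * y ^ ((m : ℕ) + 1)

/-- **Record prime gaps at the values of polynomials on products of arbitrary sets modulo primes.** -/
theorem result (r : ℕ) (hr : 1 ≤ r) (ε : ℝ) (hε : 0 < ε) (hε1 : ε ≤ 1) :
    ∃ κ : ℝ, 0 < κ ∧ ∃ δ : ℝ, 0 < δ ∧ ∀ D : ℕ, ∃ P₀ : ℝ, ∀ (p : ℕ) [Fact p.Prime], P₀ ≤ p →
    ∀ A B : Finset (ZMod p), (p : ℝ) ^ (1 + ε) ≤ A.card * B.card →
    ∀ G K : Fin r → ZMod p → ZMod p,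
    -- (1) polynomials in two variables
    (∀ c : Fin r → Fin D → Fin D → ZMod p, LinearIndependent (ZMod p) c →
      ManyCentres κ ε δ p (A ×ˢ B) fun w i => poly (c i) w.1 w.2 + G i w.1 + K i w.2) ∧
    -- (2) polynomials at sums
    (∀ g : Fin r → Polynomial (ZMod p), (∀ i, (g i).natDegree ≤ D) →
      (∀ h : Fin r → ZMod p, h ≠ 0 → 2 ≤ (∑ i, Polynomial.C (h i) * g i).natDegree) →
      ManyCentres κ ε δ p (A ×ˢ B) fun w i => (g i).eval (w.1 + w.2) + G i w.1 + K i w.2) ∧
    -- (3) polynomials at products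
    (∀ g : Fin r → Polynomial (ZMod p), (∀ i, (g i).natDegree ≤ D) →
      (∀ h : Fin r → ZMod p, h ≠ 0 → 1 ≤ (∑ i, Polynomial.C (h i) * g i).natDegree) →
      ManyCentres κ ε δ p (A ×ˢ B) fun w i => (g i).eval (w.1 * w.2) + G i w.1 + K i w.2) :=
  Pool.Agent.U234.BP.main r hr ε hε hε1

end Pool.Agent.Results.MP_711652_nt.PolynomialsOnProductSets
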