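import Mathlib
import Pool.Agent.R463.PL
import Pool.Agent.Y879.GL.QuadU

set_option autoImplicit false

/-!
# Almost prime values of quadratic polynomials at prime arguments, uniformly in the polynomial

Let `f(t) = a t ^ 2 + b t + c` with `a ≠ 0`, with a discriminant which is not a square, and such that for every prime
`q` there is an `m` with `q ∤ m f(m)`. For all `A`, `δ`, `x₀` and `ε` and all large `r` the following holds for all
large `x`, UNIFORMLY in all these `f` with `|a|, |b|, |c| ≤ x ^ A`. Put `z = x ^ (1 / r)` (integer part), and let `P` be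
the set of the primes `p` in an interval `(u, u + L] ⊆ [1, x]`, `L ≥ δ x`, for which `p` and `f(p)` have no prime
factors `q ≤ z`.

* The number of the elements of `P` is `(1 + O(ε)) L / log x · W`, where `W` is the product of
  `1 - ρ'(q) / (q - 1)` over the primes `q ≤ z` and `ρ'(q)` is the number of the roots of `f` modulo `q` other than
  `0`; there is no condition on the size of `W`. For `p ∈ P` the number `f(p)` has at most `(A + 3) r` prime factors,
  and `P` is not empty.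
* After a random element `p` of `P` the number of the `n` in `(p, p + T]` for which `n` and `f(n)` have no prime
  factors `q ≤ z` follows the Poisson law with the parameter `T V`, where `V = W ∏ (1 - 1 / q)` is the density of these
  `n`, uniformly in `T ≤ x₀ / V`.

These are the formula of Hardy-Littlewood and Bateman-Horn type for the prime arguments, and the Poisson law for the
spacings, with the values `f(p)` almost prime instead of prime.
-/

namespace Pool.Agent.Results.MP_a17b09_nt.PrimeArgumentsPoisson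

open Finset Filter

/-- `a ≠ 0`, the discriminant is not a square, and for every prime `q` there is an `m` with `q ∤ m f(m)`. -/
def Admissible (a b c : ℤ) : Prop :=
  a ≠ 0 ∧ ¬ IsSquare (b ^ 2 - 4 * a * c) ∧
    ∀ q : ℕ, q.Prime → ∃ m : ℕ, ¬ q ∣ m ∧ ¬ (q : ℤ) ∣ a * (m : ℤ) ^ 2 + b * m + c

/-- `n` and `f(n)` have no prime factors `q ≤ z`. -/
def Sifted (a b c : ℤ) (z n : ℕ) : Prop :=
  ∀ q : ℕ, q.Prime → q ≤ z → ¬ q ∣ n ∧ ¬ (q : ℤ) ∣ a * (n : ℤ) ^ 2 + b * n + c

/-- the number of the roots `1 ≤ m < q` of `f` modulo `q` -/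
noncomputable def roots (a b c : ℤ) (q : ℕ) : ℕ :=
  ((Ico 1 q).filter (fun m : ℕ => (q : ℤ) ∣ a * (m : ℤ) ^ 2 + b * m + c)).card

/-- the product of `1 - roots(q) / (q - 1)` over the primes `q ≤ z` -/
noncomputable def W (a b c : ℤ) (z : ℕ) : ℝ :=
  ∏ q ∈ (Icc 1 z).filter Nat.Prime, (1 - (roots a b c q : ℝ) / ((q : ℝ) - 1))

/-- the density of the sifted integers -/
noncomputable def V (a b c : ℤ) (z : ℕ) : ℝ := W a b c z * ∏ q ∈ (Icc 1 z).filter Nat.Prime, (1 - 1 / (q : ℝ))

open Classical in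
/-- the sifted primes in `(u, u + L]` -/
noncomputable def P (a b c : ℤ) (z u L : ℕ) : Finset ℕ :=
  (Ioc u (u + L)).filter (fun p => p.Prime ∧ Sifted a b c z p)

open Classical in
/-- the number of the sifted integers in `(n, n + T]` -/
noncomputable def next (a b c : ℤ) (z T n : ℕ) : ℕ :=
  ((Ioc n (n + T)).filter (fun m => Sifted a b c z m)).card

open Pool.Agent.W123.RP Pool.Agent.H373R2.T7 Pool.Agent.W123.RU Pool.Agent.W123.RU.Poly
  Pool.Agent.TH464.PO Pool.Agent.TH464.PW Pool.Agent.Y879.GL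

/-- the system -/
noncomputable def sys (a b c : ℤ) : Fin 2 → Polynomial ℤ := ![Polynomial.X, quad a b c]

lemma ev0 (a b c m : ℤ) : (sys a b c 0).eval m = m := by simp [sys]

lemma ev1 (a b c m : ℤ) : (sys a b c 1).eval m = a * m ^ 2 + b * m + c := by
  have : sys a b c 1 = quad a b c := rfl
  rw [this, quad_eval]

lemma sifted_iff (a b c : ℤ) (x r n : ℕ) :
    Pool.Agent.R463.PS.Sifted (sys a b c) x r n ↔ Sifted a b c ⌊(x : ℝ) ^ (1 / (r : ℝ))⌋₊ n := by
  unfold Pool.Agent.R463.PS.Sifted Sifted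
  constructor
  · intro h q hq hqz
    have h1 := h q hq ((Nat.le_floor_iff (by positivity)).1 hqz)
    have h2 := h1 0
    have h3 := h1 1
    rw [ev0] at h2
    rw [ev1] at h3
    exact ⟨fun hd => h2 (by exact_mod_cast hd), h3⟩
  · intro h q hq hqz i
    obtain ⟨h1, h2⟩ := h q hq (Nat.le_floor hqz)
    have h3 : i = 0 ∨ i = 1 := by omega
    rcases h3 with rfl | rfl
    · rw [ev0]
      exact fun hd => h1 (by exact_mod_cast hd)
    · rw [ev1]
      exact h2

lemma om_eq (a b c : ℤ) (q : ℕ) (hq : q.Prime) : Pool.Agent.R463.PS.om (sys a b c) q = roots a b c q + 1 := by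
  classical
  unfold Pool.Agent.R463.PS.om roots
  have h1 : (range q).filter (fun n : ℕ => ∃ i, (q : ℤ) ∣ (sys a b c i).eval (n : ℤ)) =
      insert 0 ((Ico 1 q).filter (fun m : ℕ => (q : ℤ) ∣ a * (m : ℤ) ^ 2 + b * m + c)) := by
    ext n
    rw [mem_filter, mem_insert, mem_filter, mem_range, mem_Ico, Fin.exists_fin_two, ev0, ev1]
    constructor
    · rintro ⟨h1, h2⟩
      rcases Nat.eq_zero_or_pos n with h3 | h3
      · exact Or.inl h3
      · right
        refine ⟨⟨h3, h1⟩, ?_⟩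
        rcases h2 with h2 | h2
        · exfalso
          have h4 : q ∣ n := by exact_mod_cast h2
          have := Nat.le_of_dvd h3 h4
          omega
        · exact h2
    · rintro (rfl | ⟨⟨h1, h2⟩, h3⟩)
      · exact ⟨hq.pos, Or.inl (by simp)⟩
      · exact ⟨h2, Or.inr h3⟩
  rw [h1, card_insert_of_notMem]
  rw [mem_filter, mem_Ico]
  omega

lemma W_eq (a b c : ℤ) (x r : ℕ) :
    Pool.Agent.R463.PS.W (sys a b c) x r = W a b c ⌊(x : ℝ) ^ (1 / (r : ℝ))⌋₊ := by
  unfold Pool.Agent.R463.PS.W W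
  apply prod_congr rfl
  intro q hq
  have hq' := (mem_filter.1 hq).2
  rw [om_eq a b c q hq']
  have h2 : (2 : ℝ) ≤ q := by exact_mod_cast hq'.two_le
  have h3 : (q : ℝ) - 1 ≠ 0 := by linarith
  have h4 : (q : ℝ) ≠ 0 := by linarith
  push_cast
  field_simp
  ring

lemma V_eq (a b c : ℤ) (x r : ℕ) :
    Pool.Agent.R463.PS.V (sys a b c) x r = V a b c ⌊(x : ℝ) ^ (1 / (r : ℝ))⌋₊ := by
  unfold Pool.Agent.R463.PS.V V W
  rw [← prod_mul_distrib]
  apply prod_congr rfl
  intro q hq
  have hq' := (mem_filter.1 hq).2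
  rw [om_eq a b c q hq']
  have h2 : (2 : ℝ) ≤ q := by exact_mod_cast hq'.two_le
  have h3 : (q : ℝ) - 1 ≠ 0 := by linarith
  have h4 : (q : ℝ) ≠ 0 := by linarith
  push_cast
  field_simp
  ring

lemma P_eq (a b c : ℤ) (x r u L : ℕ) :
    Pool.Agent.R463.PS.Pr 1 0 (sys a b c) x r u L = P a b c ⌊(x : ℝ) ^ (1 / (r : ℝ))⌋₊ u L := by
  classical
  unfold Pool.Agent.R463.PS.Pr P
  apply filter_congr
  intro n _
  rw [sifted_iff, one_mul, add_zero]

lemma next_eq (a b c : ℤ) (x r T n : ℕ) :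
    Pool.Agent.R463.PS.Next (sys a b c) x r T n = next a b c ⌊(x : ℝ) ^ (1 / (r : ℝ))⌋₊ T n := by
  classical
  unfold Pool.Agent.R463.PS.Next next
  congr 1
  apply filter_congr
  intro m _
  exact sifted_iff a b c x r m

lemma gcd_of_adm {a b c : ℤ} (h : Admissible a b c) (p : ℕ) (hp : p.Prime) :
    ¬ ((p : ℤ) ∣ a ∧ (p : ℤ) ∣ b ∧ (p : ℤ) ∣ c) := by
  rintro ⟨h1, h2, h3⟩
  obtain ⟨m, _, hm⟩ := h.2.2 p hp
  exact hm (((h1.mul_right _).add (h2.mul_right _)).add h3)

lemma sys_ok {a b c : ℤ} (h : Admissible a b c) (H U : ℝ) (h1H : 1 ≤ H) (ha : |(a : ℝ)| ≤ H)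
    (hb : |(b : ℝ)| ≤ H) (hc : |(c : ℝ)| ≤ H) : Pool.Agent.R463.PS.System 2 H U (sys a b c) := by
  have hirr : Irreducible (quad a b c) := quad_irr a b c h.1 (gcd_of_adm h) h.2.1
  have hdeg := quad_deg a b c h.1
  have s0 : sys a b c 0 = Polynomial.X := rfl
  have s1 : sys a b c 1 = quad a b c := rfl
  have hfin : ∀ i : Fin 2, i = 0 ∨ i = 1 := by
    intro i
    omega
  have hna : ∀ i j, ∀ t : ℕ, 1 ≤ t →
      ¬ Associated (sys a b c i) ((sys a b c j).comp (Polynomial.X + Polynomial.C (t : ℤ))) := by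
    intro i j t ht hass
    have hd := Polynomial.natDegree_eq_of_degree_eq (Polynomial.degree_eq_degree_of_associated hass)
    rw [Polynomial.natDegree_comp, Polynomial.natDegree_X_add_C, mul_one] at hd
    have ht0 : ((t : ℕ) : ℤ) ≠ 0 := by exact_mod_cast (by omega : t ≠ 0)
    rcases hfin i with rfl | rfl <;> rcases hfin j with rfl | rfl
    · rw [s0] at hass
      exact no_self Polynomial.X (by rw [Polynomial.natDegree_X]; norm_num) t ht0 hass
    · rw [s0, s1, hdeg, Polynomial.natDegree_X] at hd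
      omega
    · rw [s0, s1, hdeg, Polynomial.natDegree_X] at hd
      omega
    · rw [s1] at hass
      exact no_self _ (by rw [hdeg]; norm_num) t ht0 hass
  refine ⟨?_, ?_, ?_, ?_, ?_⟩
  · intro i
    rcases hfin i with rfl | rfl
    · rw [s0]
      exact Polynomial.irreducible_X
    · rw [s1]
      exact hirr
  · intro i
    rcases hfin i with rfl | rfl
    · rw [s0, Polynomial.natDegree_X]
      omega
    · rw [s1, hdeg]
      omega
  · intro i n
    have hH : 0 ≤ H := by linarith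
    rcases hfin i with rfl | rfl
    · rw [s0, Polynomial.coeff_X]
      split_ifs
      · simpa using h1H
      · simpa using hH
    · rw [s1]
      have e : (quad a b c).coeff n = if n = 2 then a else if n = 1 then b else if n = 0 then c else 0 := by
        unfold quad
        simp only [Polynomial.coeff_add, Polynomial.coeff_C_mul, Polynomial.coeff_X_pow, Polynomial.coeff_X,
          Polynomial.coeff_C]
        rcases n with _ | _ | _ | n
        · simp
        · simp
        · simp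
        · simp
      rw [e]
      split_ifs
      · exact ha
      · exact hb
      · exact hc
      · simpa using hH
  · intro p hp
    obtain ⟨m, h1, h2⟩ := h.2.2 p hp
    refine ⟨m, fun i => ?_⟩
    rcases hfin i with rfl | rfl
    · rw [ev0]
      exact fun hd => h1 (by exact_mod_cast hd)
    · rw [ev1]
      exact h2
  · intro i j t ht _
    refine ⟨fun heq => hna i j t ht ?_, fun heq => hna i j t ht ?_⟩
    · rw [heq]
    · rw [heq]
      exact (Associated.refl _).neg_left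

lemma value_ne {a b c : ℤ} (h : Admissible a b c) (n : ℕ) : a * (n : ℤ) ^ 2 + b * n + c ≠ 0 := by
  intro h0
  apply h.2.1
  refine ⟨2 * a * n + b, ?_⟩
  linear_combination (-4 * a) * h0

/-- few prime factors -/
lemma few (x r s N : ℕ) (hx : 2 ≤ x) (hr : 1 ≤ r) (hN : 0 < N) (hNx : N < x ^ s)
    (h : ∀ p : ℕ, p.Prime → p ≤ ⌊(x : ℝ) ^ (1 / (r : ℝ))⌋₊ → ¬ p ∣ N) :
    N.primeFactorsList.length ≤ r * s := by
  obtain ⟨z, hz⟩ : ∃ z, z = ⌊(x : ℝ) ^ (1 / (r : ℝ))⌋₊ := ⟨_, rfl⟩
  rw [← hz] at h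
  have hx1 : (1 : ℝ) < x := by exact_mod_cast (by omega : 1 < x)
  have hr0 : (0 : ℝ) < r := by exact_mod_cast hr
  have h1 : ∀ q ∈ N.primeFactorsList, z + 1 ≤ q := by
    intro q hq
    by_contra h2
    exact h q (Nat.prime_of_mem_primeFactorsList hq) (by omega) (Nat.dvd_of_mem_primeFactorsList hq)
  have h2 : (z + 1) ^ N.primeFactorsList.length ≤ N.primeFactorsList.prod := List.pow_card_le_prod _ _ h1
  rw [Nat.prod_primeFactorsList hN.ne'] at h2
  have h3 : (x : ℝ) ^ (1 / (r : ℝ)) < ((z + 1 : ℕ) : ℝ) := by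
    rw [hz]
    push_cast
    exact Nat.lt_floor_add_one _
  have h4 : ((x : ℝ) ^ (1 / (r : ℝ))) ^ N.primeFactorsList.length < (x : ℝ) ^ s := by
    calc ((x : ℝ) ^ (1 / (r : ℝ))) ^ N.primeFactorsList.length ≤
          ((z + 1 : ℕ) : ℝ) ^ N.primeFactorsList.length := pow_le_pow_left₀ (by positivity) h3.le _
      _ ≤ N := by exact_mod_cast h2
      _ < (x : ℝ) ^ s := by exact_mod_cast hNx
  rw [← Real.rpow_natCast, ← Real.rpow_natCast, ← Real.rpow_mul (by linarith),
    Real.rpow_lt_rpow_left_iff hx1, one_div, inv_mul_eq_div, div_lt_iff₀ hr0] at h4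
  have h5 : N.primeFactorsList.length < s * r := by exact_mod_cast h4
  rw [mul_comm]
  exact h5.le

lemma W_pos {a b c : ℤ} (h : Admissible a b c) (z : ℕ) : 0 < W a b c z := by
  classical
  unfold W
  apply prod_pos
  intro q hq
  have hq' := (mem_filter.1 hq).2
  obtain ⟨m, h1, h2⟩ := h.2.2 q hq'
  have h3 : (2 : ℝ) ≤ q := by exact_mod_cast hq'.two_le
  have h4 : roots a b c q < (Ico 1 q).card := by
    unfold roots
    apply card_lt_card
    rw [filter_ssubset]
    refine ⟨m % q, ?_, ?_⟩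
    · rw [mem_Ico]
      refine ⟨?_, Nat.mod_lt _ hq'.pos⟩
      by_contra hcon
      exact h1 (Nat.dvd_of_mod_eq_zero (by omega))
    · intro hd
      apply h2
      have h5 : (q : ℤ) ∣ (m : ℤ) - ((m % q : ℕ) : ℤ) := by
        refine ⟨((m / q : ℕ) : ℤ), ?_⟩
        have h6 := Nat.mod_add_div m q
        have h7 : ((m % q : ℕ) : ℤ) + q * ((m / q : ℕ) : ℤ) = m := by exact_mod_cast h6
        linarith
      have h8 : a * (m : ℤ) ^ 2 + b * m + c = (a * ((m % q : ℕ) : ℤ) ^ 2 + b * ((m % q : ℕ) : ℤ) + c) +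
          ((m : ℤ) - ((m % q : ℕ) : ℤ)) * (a * ((m : ℤ) + ((m % q : ℕ) : ℤ)) + b) := by ring
      rw [h8]
      exact hd.add (h5.mul_right _)
  rw [Nat.card_Ico] at h4
  have h5 : ((roots a b c q : ℕ) : ℝ) < (q : ℝ) - 1 := by
    have h6 : roots a b c q + 1 < q := by omega
    have h7 : ((roots a b c q : ℕ) : ℝ) + 1 < q := by exact_mod_cast h6
    linarith
  rw [sub_pos, div_lt_one (by linarith)]
  exact h5

open Classical in
/-- **Prime arguments: the asymptotic formula and the Poisson law, uniformly in the quadratic polynomials.** -/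
theorem result (A : ℕ) (δ x₀ ε : ℝ) (hδ : 0 < δ) (hδ1 : δ ≤ 1) (hε : 0 < ε) (hε1 : ε < 1) :
    ∃ r₀ : ℕ, 2 ≤ r₀ ∧ ∀ r : ℕ, r₀ ≤ r → ∀ᶠ x : ℕ in atTop, ∀ z : ℕ, z = ⌊(x : ℝ) ^ (1 / (r : ℝ))⌋₊ →
      ∀ a b c : ℤ, Admissible a b c → |a| ≤ (x : ℤ) ^ A → |b| ≤ (x : ℤ) ^ A → |c| ≤ (x : ℤ) ^ A →
      ∀ u L : ℕ, δ * x ≤ L → u + L ≤ x →
        (|((P a b c z u L).card : ℝ) * Real.log x - L * W a b c z| ≤ ε * (L * W a b c z) ∧
          0 < (P a b c z u L).card ∧
          ∀ p ∈ P a b c z u L, a * (p : ℤ) ^ 2 + b * p + c ≠ 0 ∧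
            (a * (p : ℤ) ^ 2 + b * p + c).natAbs.primeFactorsList.length ≤ r * (A + 3)) ∧
        ∀ T : ℕ, T * V a b c z ≤ x₀ → ∀ B : Finset ℕ,
          |(((P a b c z u L).filter (fun p => next a b c z T p ∈ B)).card : ℝ) -
            (P a b c z u L).card *
              ∑ j ∈ B, Real.exp (-(T * V a b c z)) * (T * V a b c z) ^ j / j.factorial| ≤
            ε * (P a b c z u L).card := by
  obtain ⟨r0, hr0, h⟩ := Pool.Agent.R463.PS.after 1 2 2 squarefree_one (A + 1) 1 1 δ (by positivity) one_pos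
    one_pos hδ hδ1 x₀ ε hε hε1.le
  refine ⟨r0, hr0, fun r hr => ?_⟩
  obtain ⟨C, hC, hV⟩ := Pool.Agent.R463.PS.V_le_fixed Polynomial.X Polynomial.irreducible_X
    (by rw [Polynomial.natDegree_X]) (by rw [Polynomial.leadingCoeff_X]; exact one_pos)
    (fun p hp => ⟨1, by
      rw [Polynomial.eval_X]
      intro hd
      have h1 : p ∣ 1 := by exact_mod_cast hd
      exact hp.one_lt.ne' (Nat.dvd_one.1 h1)⟩) r (hr0.trans hr)
  filter_upwards [h r hr C, hV, eventually_ge_atTop 4] with x hx hVx hx4 z hz a b c hadm ha hb hc u L hL huL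
  have hx4r : (4 : ℝ) ≤ x := by exact_mod_cast hx4
  have hx1 : (1 : ℝ) ≤ x := by linarith
  have hht : ∀ y : ℤ, |y| ≤ (x : ℤ) ^ A → |(y : ℝ)| ≤ (x : ℝ) ^ ((A : ℝ) + 1) := by
    intro y hy
    have h7 : |(y : ℝ)| ≤ (x : ℝ) ^ A := by exact_mod_cast hy
    refine h7.trans ?_
    rw [← Real.rpow_natCast]
    exact Real.rpow_le_rpow_of_exponent_le hx1 (by linarith)
  obtain ⟨h1, h2⟩ := hx (sys a b c) 0
    (sys_ok hadm _ _ (Real.one_le_rpow hx1 (by positivity)) (hht a ha) (hht b hb) (hht c hc))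
    (by norm_num) (fun p n hp hpd => absurd hpd (fun h3 => hp.one_lt.ne' (Nat.dvd_one.1 h3)))
    ⟨0, fun n => by rw [ev0]; push_cast; ring⟩ (hVx 2 (sys a b c) ⟨0, rfl⟩)
    (by push_cast; positivity) x (by rw [Real.rpow_one]) u L hL huL
  rw [P_eq, W_eq, ← hz] at h1
  simp only [P_eq, next_eq, V_eq, ← hz] at h2
  refine ⟨⟨h1, ?_, ?_⟩, h2⟩
  · have hW := W_pos hadm z
    have hLpos : (0 : ℝ) < L := lt_of_lt_of_le (by positivity) hL
    have h3 : 0 < (L : ℝ) * W a b c z := by positivity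
    have h4 := (abs_le.1 h1).1
    have h5 : 0 < ((P a b c z u L).card : ℝ) * Real.log x := by nlinarith
    by_contra hcon
    have h6 : (P a b c z u L).card = 0 := by omega
    rw [h6] at h5
    simp at h5
  · intro p hp
    refine ⟨value_ne hadm p, ?_⟩
    unfold P at hp
    rw [mem_filter, mem_Ioc] at hp
    obtain ⟨⟨hp1, hp2⟩, hp3, hp4⟩ := hp
    have hpx : p ≤ x := hp2.trans huL
    apply few x r (A + 3) _ (by omega) (by omega) (Int.natAbs_pos.2 (value_ne hadm p))
    · have hpz : (p : ℤ) ≤ x := by exact_mod_cast hpx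
      have hp0 : (0 : ℤ) ≤ p := Int.natCast_nonneg p
      have hx0 : (0 : ℤ) ≤ (x : ℤ) ^ A := by positivity
      have hx1z : (4 : ℤ) ≤ x := by exact_mod_cast hx4
      have h3 : |a * (p : ℤ) ^ 2 + b * p + c| ≤ 3 * (x : ℤ) ^ (A + 2) := by
        have e1 : |a * (p : ℤ) ^ 2| ≤ (x : ℤ) ^ A * (x : ℤ) ^ 2 := by
          rw [abs_mul, abs_of_nonneg (by positivity : (0 : ℤ) ≤ (p : ℤ) ^ 2)]
          exact mul_le_mul ha (pow_le_pow_left₀ hp0 hpz 2) (by positivity) hx0
        have e2 : |b * (p : ℤ)| ≤ (x : ℤ) ^ A * (x : ℤ) ^ 2 := by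
          rw [abs_mul, abs_of_nonneg hp0]
          apply mul_le_mul hb _ hp0 hx0
          nlinarith
        have e3 : |c| ≤ (x : ℤ) ^ A * (x : ℤ) ^ 2 := by
          refine hc.trans ?_
          have hx2 : (1 : ℤ) ≤ (x : ℤ) ^ 2 := by nlinarith
          exact le_mul_of_one_le_right hx0 hx2
        have e4 := abs_add_three (a * (p : ℤ) ^ 2) (b * p) c
        rw [pow_add]
        linarith
      have h4 : 3 * (x : ℤ) ^ (A + 2) < (x : ℤ) ^ (A + 3) := by
        have : (0 : ℤ) < (x : ℤ) ^ (A + 2) := by positivity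
        have e5 : (x : ℤ) ^ (A + 3) = (x : ℤ) ^ (A + 2) * x := by ring
        rw [e5]
        nlinarith
      have h5 : ((a * (p : ℤ) ^ 2 + b * p + c).natAbs : ℤ) < (x : ℤ) ^ (A + 3) := by
        rw [Int.natCast_natAbs]
        exact h3.trans_lt h4
      exact_mod_cast h5
    · intro q hq hqz hd
      rw [← hz] at hqz
      exact (hp4 q hq hqz).2 (Int.natCast_dvd.2 hd)

end Pool.Agent.Results.MP_a17b09_nt.PrimeArgumentsPoisson
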