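import Pool.Agent.U234.DS.Main

set_option autoImplicit false

/-!
# Record prime gaps on difference sets, dense Sidon sets and graphs of perfect nonlinear functions

Write `f(x) = log x (log₂ x)² log₄ x / (log₃ x)²` for the record size of the prime-free intervals.  An
integer `n` is a centre modulo `p` if every integer within `κ f(p)` of `n` has a prime factor `≤ p ^ ε`;
so a centre in `(p ^ ε + κ f(p), p)` is in the middle of a record prime gap.  A finite family of vectors
modulo `p` has many centres if in every box with sides `L ≥ p ^ (1 - δ)` all the coordinates of at least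
`|s| p ^ (-ε)` of the vectors are represented by centres.

The question is which PURELY COMBINATORIAL properties of a family of vectors modulo `p` force it to meet
record prime gaps.  We show, with constants which depend only on `r` (on `m, n` in (5)) and `ε`:

(1) Differences.  If the numbers `D(d)` of pairs with difference `d` satisfy
`∑ |D(d) - l| ≤ |s|² p ^ (-2 ε)` for one real `l`, then the family has many centres.
(2) Energies.  The same if for one `k ≥ 1` the `k`-fold additive energy is at most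
`|s| ^ (2 k) p ^ (-r) (1 + p ^ (-2 k ε))` (it is never less than `|s| ^ (2 k) p ^ (-r)`).
(3) Sets all of whose nonzero differences occur at most `l` times and which are nearly as large as this
allows, `l p ^ r ≤ |S|² (1 + p ^ (-ε))`; for `l = 1` these are the dense Sidon sets.
(4) All difference sets (every nonzero difference occurs exactly `l ≥ 1` times), without any condition
on the size.
(5) The graphs of all perfect nonlinear functions `F : (ℤ/p)^m → (ℤ/p)^n` (all the derivatives
`F(x + a) - F(x)`, `a ≠ 0`, are balanced): planar functions, vectorial bent functions.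

The criterion with the Fourier coefficients (part (0) of `MP_69be96_nt.ProductsAndPowersModP`) is taken
from the starting library; new are the passages from differences and energies to it and (1)-(5).
-/

namespace Pool.Agent.Results.MP_c853c5_nt.DifferenceSetsAndBentFunctions

open Finset

/-- The record scale `f(x) = log x (log₂ x)² log₄ x / (log₃ x)²` (iterated natural logarithms). -/
noncomputable def f (x : ℝ) : ℝ :=
  Real.log x * (Real.log (Real.log x)) ^ 2 * Real.log (Real.log (Real.log (Real.log x))) /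
    (Real.log (Real.log (Real.log x))) ^ 2

/-- Every integer within `κ f(p)` of `n` has a prime factor at most `p ^ ε`. -/
def Centre (κ ε : ℝ) (p : ℕ) (n : ℤ) : Prop :=
  ∀ t : ℤ, |(t : ℝ) - n| ≤ κ * f p → ∃ l : ℕ, l.Prime ∧ (l : ℝ) ≤ (p : ℝ) ^ ε ∧ (l : ℤ) ∣ t

/-- For every box `∏ (M_j, M_j + L]` with `p ^ (1 - δ) ≤ L ≤ p` at least `|s| p ^ (-ε)` of the vectors
`v_i`, `i ∈ s`, modulo `p` are represented by vectors of centres in the box. -/
def ManyCentres (κ ε δ : ℝ) (p : ℕ) {ι : Type} {r : ℕ} (s : Finset ι) (v : ι → Fin r → ZMod p) :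
    Prop :=
  ∀ (M : Fin r → ℤ) (L : ℕ), (p : ℝ) ^ (1 - δ) ≤ L → L ≤ p →
    ∃ g ⊆ s, s.card * (p : ℝ) ^ (-ε) ≤ g.card ∧
      ∀ i ∈ g, ∀ j, ∃ n : ℤ, M j < n ∧ n ≤ M j + L ∧ (n : ZMod p) = v i j ∧ Centre κ ε p n

/-- The number of the pairs `(i, j)` of indices in `s` with `v_i - v_j = d`. -/
def diffs {p r : ℕ} {ι : Type} (s : Finset ι) (v : ι → Fin r → ZMod p) (d : Fin r → ZMod p) : ℕ :=
  ((s ×ˢ s).filter fun w => v w.1 - v w.2 = d).card

/-- The `k`-fold additive energy: the number of the pairs of `k`-tuples of indices in `s` with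
`v_{a 1} + … + v_{a k} = v_{b 1} + … + v_{b k}`. -/
def energy {p r : ℕ} {ι : Type} (s : Finset ι) (v : ι → Fin r → ZMod p) (k : ℕ) : ℕ :=
  ((Fintype.piFinset (fun _ : Fin k => s) ×ˢ Fintype.piFinset (fun _ : Fin k => s)).filter
    fun w => ∑ t, v (w.1 t) = ∑ t, v (w.2 t)).card

/-- All the derivatives of `F : (ℤ/p)^m → (ℤ/p)^n` in nonzero directions are balanced: each value is
taken exactly `p ^ (m - n)` times. -/
def PerfectNonlinear {p m n : ℕ} [NeZero p] (F : (Fin m → ZMod p) → (Fin n → ZMod p)) : Prop :=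
  ∀ a : Fin m → ZMod p, a ≠ 0 → ∀ b : Fin n → ZMod p,
    (univ.filter fun x : Fin m → ZMod p => F (x + a) - F x = b).card * p ^ n = p ^ m

/-- **Record prime gaps on difference sets, dense Sidon sets and graphs of perfect nonlinear
functions.** -/
theorem result (ε : ℝ) (hε : 0 < ε) (hε1 : ε ≤ 1) :
    (∀ r : ℕ, 1 ≤ r → ∃ κ : ℝ, 0 < κ ∧ ∃ δ : ℝ, 0 < δ ∧ ∃ P₀ : ℝ,
      ∀ (p : ℕ) [Fact p.Prime], P₀ ≤ p →
      -- (1) differences
      (∀ (ι : Type) (s : Finset ι) (v : ι → Fin r → ZMod p), s.Nonempty → ∀ l : ℝ,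
        ∑ d : Fin r → ZMod p, |(diffs s v d : ℝ) - l| ≤ (s.card : ℝ) ^ 2 * (p : ℝ) ^ (-(2 * ε)) →
        ManyCentres κ ε δ p s v) ∧
      -- (2) energies
      (∀ (ι : Type) (s : Finset ι) (v : ι → Fin r → ZMod p), s.Nonempty → ∀ k : ℕ, 1 ≤ k →
        (p : ℝ) ^ r * energy s v k ≤ (s.card : ℝ) ^ (2 * k) * (1 + (p : ℝ) ^ (-(2 * k * ε))) →
        ManyCentres κ ε δ p s v) ∧
      -- (3) large sets with few representations of the differences
      (∀ (S : Finset (Fin r → ZMod p)) (l : ℕ), 1 ≤ l →
        (∀ d : Fin r → ZMod p, d ≠ 0 → diffs S (fun x => x) d ≤ l) →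
        l * (p : ℝ) ^ r ≤ (S.card : ℝ) ^ 2 * (1 + (p : ℝ) ^ (-ε)) →
        ManyCentres κ ε δ p S (fun x => x)) ∧
      -- (4) difference sets
      (∀ (S : Finset (Fin r → ZMod p)) (l : ℕ), 1 ≤ l →
        (∀ d : Fin r → ZMod p, d ≠ 0 → diffs S (fun x => x) d = l) →
        ManyCentres κ ε δ p S (fun x => x))) ∧
    -- (5) perfect nonlinear functions
    (∀ m n : ℕ, 1 ≤ m → ∃ κ : ℝ, 0 < κ ∧ ∃ δ : ℝ, 0 < δ ∧ ∃ P₀ : ℝ,
      ∀ (p : ℕ) [Fact p.Prime], P₀ ≤ p →
      ∀ F : (Fin m → ZMod p) → (Fin n → ZMod p), PerfectNonlinear F →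
        ManyCentres κ ε δ p univ (fun x => Fin.append x (F x))) :=
  ⟨fun r hr => Pool.Agent.U234.DS.all r hr ε hε hε1,
    fun m n hm => Pool.Agent.U234.DS.nonlinear m n hm ε hε hε1⟩

end Pool.Agent.Results.MP_c853c5_nt.DifferenceSetsAndBentFunctions
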