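import Pool.Agent.U437.DC.Main

/-!
# Consecutive gaps between primes which follow an arbitrary recursive divisibility rule

Let `f(x) = log x (log₂ x)² log₄ x / (log₃ x)²`, the size of the largest gaps between consecutive
primes that are known to occur up to `x`. Let `R` be ANY function which attaches a positive integer to
every finite sequence of natural numbers. For every `H` with `1 ≤ H ≤ c f(x)` there are at least
`x^(7/8)` clusters of `k + 1` consecutive primes up to `x` that follow a gap of size at least `c f(x)`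
and whose gaps are `B v_0, …, B v_(k-1)`, between `H` and `C H`, with positive integers `B`, `v_i` such
that `R(v_0, …, v_(i-1))` divides `v_i` for all `i`. The same holds for the gaps in the reversed order.

So for every `A` there are at least `x^(7/8)` clusters such that `A` times every difference
`p_j - p_i` of two primes of the cluster divides all the differences `p_l - p_j`, `i < j < l`; and also
clusters such that `A (p_l - p_j)` divides all the `p_j - p_i`. With `H = c f(x)` all the `k + 1` gaps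
have record size.

Method: a sequence of weights all of whose block sums follow the rule (`Pool.Agent.U437.DC.Seq`), and
the engine of helper898 (`Pool.Agent.Y898.Engine2`), which rests on the record sieve of helper101 and on
the sieve inside record windows of helper312's team.
-/

set_option autoImplicit false

namespace Pool.Agent.Results.MP_f9960f_nt.DivisibilityChains

/-- The record scale `f(x) = log x (log₂ x)² log₄ x / (log₃ x)²` (iterated natural logarithms). -/
noncomputable def f (x : ℝ) : ℝ :=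
  Real.log x * (Real.log (Real.log x)) ^ 2 * Real.log (Real.log (Real.log (Real.log x))) /
    (Real.log (Real.log (Real.log x))) ^ 2

/-- The `i`-th prime, numbered from `p 0 = 2`. -/
noncomputable def p (i : ℕ) : ℕ := Nat.nth Nat.Prime i

/-- The gap after the `i`-th prime. -/
noncomputable def d (i : ℕ) : ℕ := p (i + 1) - p i

/-- The primes `p_n, …, p_(n+k)` are at most `x`, the `k` gaps between them are at least `H` and at
most `C H`, and the gap before `p_n` is at least `c f(x)`. -/
def Cluster (c C x H : ℝ) (k n : ℕ) : Prop :=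
  0 < n ∧ (p (n + k) : ℝ) ≤ x ∧ c * f x ≤ (p n : ℝ) - p (n - 1) ∧
    ∀ i < k, H ≤ (d (n + i) : ℝ) ∧ (d (n + i) : ℝ) ≤ C * H

/-- The numbers `g 0, …, g (k - 1)` are `B v 0, …, B v (k - 1)` with positive integers `B`, `v i` such
that each `v i` is divisible by the value of `R` at the sequence `v 0, …, v (i - 1)`. -/
def Follows (R : List ℕ → ℕ) (k : ℕ) (g : ℕ → ℕ) : Prop :=
  ∃ (B : ℕ) (v : ℕ → ℕ), 0 < B ∧
    ∀ i < k, g i = B * v i ∧ 0 < v i ∧ R ((List.range i).map v) ∣ v i

/-- **Recursive divisibility rules for consecutive prime gaps at every scale next to a record gap.**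
(1) For every `k` and every function `R` with positive values there are `c, C > 0` and `x₀` such that
for all `x ≥ x₀` and `1 ≤ H ≤ c f(x)` at least `x^(7/8)` clusters of `k + 1` consecutive primes have
gaps which follow the rule `R`, and at least `x^(7/8)` have gaps which, read from the right to the
left, follow the rule `R`.
(2) For all `k` and `A ≥ 1` there are `c, C > 0` and `x₀` such that for all `x ≥ x₀` and
`1 ≤ H ≤ c f(x)`: for at least `x^(7/8)` clusters `A (p_(n+j) - p_(n+i))` divides `p_(n+l) - p_(n+j)` for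
all `i < j < l ≤ k`; for at least `x^(7/8)` clusters `A (p_(n+l) - p_(n+j))` divides
`p_(n+j) - p_(n+i)` for all `i < j < l ≤ k`. -/
theorem result :
    (∀ (k : ℕ) (R : List ℕ → ℕ), (∀ L, 0 < R L) → ∃ c C : ℝ, 0 < c ∧ 0 < C ∧
      ∃ x₀ : ℝ, ∀ x : ℝ, x₀ ≤ x → ∀ H : ℝ, 1 ≤ H → H ≤ c * f x →
      x ^ (7 / 8 : ℝ) ≤ (Set.ncard {n : ℕ | Cluster c C x H k n ∧
        Follows R k (fun i => d (n + i))} : ℝ) ∧
      x ^ (7 / 8 : ℝ) ≤ (Set.ncard {n : ℕ | Cluster c C x H k n ∧
        Follows R k (fun i => d (n + (k - 1 - i)))} : ℝ)) ∧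
    ∀ k A : ℕ, 0 < A → ∃ c C : ℝ, 0 < c ∧ 0 < C ∧
      ∃ x₀ : ℝ, ∀ x : ℝ, x₀ ≤ x → ∀ H : ℝ, 1 ≤ H → H ≤ c * f x →
      x ^ (7 / 8 : ℝ) ≤ (Set.ncard {n : ℕ | Cluster c C x H k n ∧
        ∀ i j l : ℕ, i < j → j < l → l ≤ k →
          (A : ℤ) * ((p (n + j) : ℤ) - p (n + i)) ∣ (p (n + l) : ℤ) - p (n + j)} : ℝ) ∧
      x ^ (7 / 8 : ℝ) ≤ (Set.ncard {n : ℕ | Cluster c C x H k n ∧
        ∀ i j l : ℕ, i < j → j < l → l ≤ k →
          (A : ℤ) * ((p (n + l) : ℤ) - p (n + j)) ∣ (p (n + j) : ℤ) - p (n + i)} : ℝ) := by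
  have key : ∀ (k : ℕ) (R : List ℕ → ℕ), (∀ L, 0 < R L) → ∃ c C : ℝ, 0 < c ∧ 0 < C ∧
      ∃ x₀ : ℝ, ∀ x : ℝ, x₀ ≤ x → ∀ H : ℝ, 1 ≤ H → H ≤ c * f x →
      x ^ (7 / 8 : ℝ) ≤ (Set.ncard {n : ℕ | Cluster c C x H k n ∧
        Follows R k (fun i => d (n + i))} : ℝ) ∧
      x ^ (7 / 8 : ℝ) ≤ (Set.ncard {n : ℕ | Cluster c C x H k n ∧
        Follows R k (fun i => d (n + (k - 1 - i)))} : ℝ) := by
    intro k R hR
    obtain ⟨c, C, hc, hC, h⟩ := Pool.Agent.U437.DC.rule k R hR
    obtain ⟨x₀, hx₀⟩ := Filter.eventually_atTop.1 h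
    exact ⟨c, C, hc, hC, x₀, fun x hx H hH hHc => hx₀ x hx H hH hHc⟩
  refine ⟨key, ?_⟩
  intro k A hA
  obtain ⟨c, C, hc, hC, x₀, h⟩ := key k (Pool.Agent.U437.DC.RR A) (Pool.Agent.U437.DC.RR_pos A)
  refine ⟨c, C, hc, hC, x₀, fun x hx H hH hHc => ?_⟩
  obtain ⟨h1, h2⟩ := h x hx H hH hHc
  have hs : ∀ n i j : ℕ, i ≤ j → ((∑ t ∈ Finset.Ico i j, d (n + t) : ℕ) : ℤ) =
      (p (n + j) : ℤ) - p (n + i) := fun n i j hij => Pool.Agent.U437.DC.sum_gap n i j hij
  constructor
  · refine h1.trans ?_
    rw [Nat.cast_le]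
    refine Set.ncard_le_ncard ?_
      (Pool.Agent.U437.DC.finite_of (x := x) (k := k) fun n hn => hn.1.2.1)
    rintro n ⟨hn1, hn2⟩
    refine ⟨hn1, fun i j l hij hjl hl => ?_⟩
    have h3 := Pool.Agent.U437.DC.blocks_dvd hA hn2 hij hjl hl
    rw [← hs n i j hij.le, ← hs n j l hjl.le]
    exact_mod_cast h3
  · refine h2.trans ?_
    rw [Nat.cast_le]
    refine Set.ncard_le_ncard ?_
      (Pool.Agent.U437.DC.finite_of (x := x) (k := k) fun n hn => hn.1.2.1)
    rintro n ⟨hn1, hn2⟩
    refine ⟨hn1, fun i j l hij hjl hl => ?_⟩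
    have h3 := Pool.Agent.U437.DC.blocks_dvd hA hn2 (i := k - l) (j := k - j) (l := k - i)
      (by omega) (by omega) (by omega)
    have hrev : ∀ a b : ℕ, a ≤ b → b ≤ k →
        ∑ t ∈ Finset.Ico (k - b) (k - a), d (n + (k - 1 - t)) =
          ∑ t ∈ Finset.Ico a b, d (n + t) := by
      intro a b hab hb
      refine Finset.sum_bij' (fun s _ => k - 1 - s) (fun s _ => k - 1 - s) ?_ ?_ ?_ ?_ ?_
      · intro s hs
        rw [Finset.mem_Ico] at hs ⊢
        omega
      · intro s hs
        rw [Finset.mem_Ico] at hs ⊢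
        omega
      · intro s hs
        rw [Finset.mem_Ico] at hs
        omega
      · intro s hs
        rw [Finset.mem_Ico] at hs
        omega
      · intro s _
        rfl
    rw [hrev j l hjl.le hl, hrev i j hij.le (by omega)] at h3
    rw [← hs n i j hij.le, ← hs n j l hjl.le]
    exact_mod_cast h3

end Pool.Agent.Results.MP_f9960f_nt.DivisibilityChains
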